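import Pool.Agent.H93.EGH.RLF

/-!
# EGH: no socle for short sequences (row PNS)
-/

set_option autoImplicit false

namespace Pool.EGH

open MvPolynomial

namespace PNSaux

variable {K : Type} [Field K] {N : ℕ}

theorem mci_inv {k r : ℕ} {Q : Ideal (PR K N)} (h : MCI k (r + 1) Q) :
    ∃ (J : Ideal (PR K N)) (q : PR K N), Q = J ⊔ Ideal.span {q} ∧ MCI k r J ∧ q ∈ fm K N 2 ∧
      Rg J q := by
  cases h with
  | quad h1 h2 h3 => exact ⟨_, _, rfl, h1, h2, h3⟩

theorem mem_sup {J : Ideal (PR K N)} {q z : PR K N} :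
    z ∈ J ⊔ Ideal.span {q} ↔ ∃ y, z - q * y ∈ J := by
  constructor
  · intro h
    obtain ⟨j, hj, w, hw, rfl⟩ := Submodule.mem_sup.1 h
    obtain ⟨y, rfl⟩ := Ideal.mem_span_singleton'.1 hw
    exact ⟨y, by rw [mul_comm y q, add_sub_cancel_right]; exact hj⟩
  · rintro ⟨y, hy⟩
    have : z = (z - q * y) + q * y := by ring
    rw [this]
    exact Submodule.add_mem_sup hy (Ideal.mem_span_singleton'.2 ⟨y, mul_comm y q⟩)

theorem exists_lin (k : ℕ) (hk : k < N) (L : Submodule K (PR K N)) (hL : L ≤ fm K N 1)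
    (hf : Module.finrank K L = k) : ∃ l ∈ fm K N 1, l ∉ L := by
  by_contra hcon
  push Not at hcon
  have hfin : Module.Finite K (fm K N 1) := Module.Finite.iff_fg.2 (homogeneousSubmodule_fg _ _ 1)
  have hfinL : Module.Finite K L := Submodule.finiteDimensional_of_le hL
  have hX : ∀ i : Fin N, (X i : PR K N) ∈ L := fun i => hcon _ (RLFaux.X_mem i)
  let v : Fin N → L := fun i => ⟨X i, hX i⟩
  have hv : LinearIndependent K v := by
    apply LinearIndependent.of_comp L.subtype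
    exact MvPolynomial.linearIndependent_X (Fin N) K
  have := hv.fintype_card_le_finrank
  rw [Fintype.card_fin, hf] at this
  omega

end PNSaux

open PNSaux

/-- PNS. -/
theorem t_pns (h1 : LSHStmt) (h2 : LINStmt) (h4 : PERStmt) (h5 : HGAStmt) : PNSStmt := by
  intro K _ _ N k r
  induction r generalizing k with
  | zero =>
    intro J hJ hk z hz
    obtain ⟨L, hL, hf, rfl⟩ := h1 K N k J hJ
    obtain ⟨l, hl, hlL⟩ := exists_lin k (by omega) L hL hf
    exact (h2 K N L hL).2.2 l hl hlL z (hz l hl)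
  | succ r ih =>
    intro Q hQ hk z hz
    obtain ⟨J, q, rfl, hJ, hq, hr⟩ := mci_inv hQ
    have hHg : Hg J := (h5 K N).2.2.2 k r J hJ
    obtain ⟨l₀, hl₀, hrl⟩ := t_rlf K N J hHg (ih k J hJ (by omega))
    have hJl := h4 K N k r J l₀ hJ hl₀ hrl
    obtain ⟨y, hy⟩ := mem_sup.1 (hz l₀ hl₀)
    have hyJ : y ∈ J ⊔ Ideal.span {l₀} := by
      apply ih (k + 1) _ hJl (by omega)
      intro m hm
      obtain ⟨y', hy'⟩ := mem_sup.1 (hz m hm)
      rw [mem_sup]
      refine ⟨y', hr _ ?_⟩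
      have h6 : q * (m * y - l₀ * y') = l₀ * (m * z - q * y') - m * (l₀ * z - q * y) := by ring
      rw [h6]
      exact sub_mem (Ideal.mul_mem_left _ _ hy') (Ideal.mul_mem_left _ _ hy)
    obtain ⟨y'', hy''⟩ := mem_sup.1 hyJ
    rw [mem_sup]
    refine ⟨y'', hrl _ ?_⟩
    have h7 : l₀ * (z - q * y'') = (l₀ * z - q * y) + q * (y - l₀ * y'') := by ring
    rw [h7]
    exact add_mem hy (Ideal.mul_mem_left _ _ hy'')

end Pool.EGH
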