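import Pool.Agent.H45.EGH.S1

/-!
# EGH: regular forms in a space of forms (rows RLF and RQF)
-/

set_option autoImplicit false

namespace Pool.EGH

open MvPolynomial

namespace RLFaux

variable {K : Type} [Field K] {N : ℕ}

/-- Prime avoidance for subspaces over an infinite field. -/
theorem avoid [Infinite K] (J : Ideal (PR K N)) (W W' : Submodule K (PR K N)) (hW : ¬ W ≤ W')
    (h : ∀ P : Ideal (PR K N), P.IsPrime → ∀ z : PR K N, z ∉ J → (∀ f, f ∈ P ↔ f * z ∈ J) →
      ∃ w ∈ W, w ∉ P) :
    ∃ q ∈ W, q ∉ W' ∧ Rg J q := by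
  classical
  have hfin := associatedPrimes.finite (PR K N) (PR K N ⧸ J)
  let g : Ideal (PR K N) → Submodule K W := fun P => (P.restrictScalars K).comap W.subtype
  let S : Set (Submodule K W) := insert (W'.comap W.subtype)
    (g '' associatedPrimes (PR K N) (PR K N ⧸ J))
  have hS : S.Finite := (hfin.image g).insert _
  have htop : (⊤ : Submodule K W) ∉ hS.toFinset := by
    rw [Set.Finite.mem_toFinset]
    rintro (h1 | ⟨P, hP, h1⟩)
    · apply hW
      intro w hw
      have h2 : (⟨w, hw⟩ : W) ∈ (⊤ : Submodule K W) := Submodule.mem_top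
      rw [h1] at h2
      exact h2
    · have hP2 : IsAssociatedPrime P (PR K N ⧸ J) := hP
      rw [isAssociatedPrime_iff] at hP2
      obtain ⟨hprime, x, hx⟩ := hP2
      obtain ⟨z, rfl⟩ := Ideal.Quotient.mk_surjective x
      have hPz : ∀ f, f ∈ P ↔ f * z ∈ J := by
        intro f
        rw [hx, Submodule.mem_colon_singleton, Submodule.mem_bot]
        have : f • (Ideal.Quotient.mk J z) = Ideal.Quotient.mk J (f * z) := rfl
        rw [this, Ideal.Quotient.eq_zero_iff_mem]
      have hz : z ∉ J := by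
        intro hz
        apply hprime.ne_top
        rw [Ideal.eq_top_iff_one, hPz, one_mul]
        exact hz
      obtain ⟨w, hw, hwP⟩ := h P hprime z hz hPz
      have h2 : (⟨w, hw⟩ : W) ∈ (⊤ : Submodule K W) := Submodule.mem_top
      rw [← h1] at h2
      exact hwP h2
  have hne := Subspace.biUnion_ne_univ_of_top_notMem htop
  obtain ⟨q, hq⟩ := (Set.ne_univ_iff_exists_notMem _).1 hne
  simp only [Set.mem_iUnion, not_exists] at hq
  have hq2 : ∀ p ∈ S, q ∉ p := fun p hp => hq p ((Set.Finite.mem_toFinset hS).2 hp)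
  refine ⟨q, q.2, ?_, ?_⟩
  · exact hq2 _ (Set.mem_insert _ _)
  · intro z hz
    by_contra hzJ
    have h3 : (q : PR K N) ∈ ({r : PR K N | ∃ x : PR K N ⧸ J, x ≠ 0 ∧ r • x = 0} : Set _) := by
      refine ⟨Ideal.Quotient.mk J z, ?_, ?_⟩
      · rwa [Ne, Ideal.Quotient.eq_zero_iff_mem]
      · show Ideal.Quotient.mk J ((q : PR K N) * z) = 0
        rw [Ideal.Quotient.eq_zero_iff_mem]
        exact hz
    rw [← biUnion_associatedPrimes_eq_zero_divisors (PR K N) (PR K N ⧸ J)] at h3
    simp only [Set.mem_iUnion] at h3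
    obtain ⟨P, hP, hqP⟩ := h3
    exact hq2 (g P) (Set.mem_insert_of_mem _ ⟨P, hP, rfl⟩) hqP

theorem X_mem (i : Fin N) : (X i : PR K N) ∈ fm K N 1 := by
  rw [mem_homogeneousSubmodule]
  exact isHomogeneous_X K i

/-- a form of degree one is in the ideal of the variables -/
theorem lin_mem (P : Ideal (PR K N)) (hX : ∀ i, (X i : PR K N) ∈ P) (l : PR K N)
    (hl : l ∈ fm K N 1) : l ∈ P := by
  rw [mem_homogeneousSubmodule] at hl
  rw [l.as_sum]
  apply Ideal.sum_mem
  intro d hd
  have hdeg : d.degree = 1 := by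
    have h1 := hl (mem_support_iff.1 hd)
    rw [← h1]
    simp only [Finsupp.weight_apply, Finsupp.sum, Pi.one_apply, smul_eq_mul, mul_one]
    rfl
  have hne : d ≠ 0 := by
    rintro rfl
    simp at hdeg
  obtain ⟨i, hi⟩ := Finsupp.ne_iff.1 hne
  have hXi : (X i : PR K N) ∣ monomial d (coeff d l) := by
    rw [X_dvd_monomial]
    right
    simpa using hi
  exact Ideal.mem_of_dvd _ hXi (hX i)

end RLFaux

/-- RLF. -/
theorem t_rlf : RLFStmt := by
  intro K _ _ N J _ hsoc
  by_cases hJ : J = ⊤
  · refine ⟨0, zero_mem _, ?_⟩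
    intro z _
    rw [hJ]
    exact Submodule.mem_top
  · by_cases hW : fm K N 1 ≤ ⊥
    · exfalso
      apply hJ
      rw [Ideal.eq_top_iff_one]
      apply hsoc
      intro l hl
      have h1 : l = 0 := by simpa using hW hl
      rw [h1, zero_mul]
      exact zero_mem _
    · obtain ⟨q, hq, _, hr⟩ := RLFaux.avoid J (fm K N 1) ⊥ hW (by
        intro P _ z hz hP
        by_contra hcon
        push Not at hcon
        exact hz (hsoc z (fun l hl => (hP l).1 (hcon l hl))))
      exact ⟨q, hq, hr⟩

/-- RQF. -/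
theorem t_rqf : RQFStmt := by
  intro K _ _ N m J V V' _ hsoc _ hV'V hcov
  apply RLFaux.avoid J V V' (not_le_of_gt hV'V)
  intro P hPp z hz hP
  by_contra hcon
  push Not at hcon
  apply hz
  apply hsoc
  have hJP : J ⊔ Ideal.span (V : Set (PR K N)) ≤ P := by
    apply sup_le
    · intro f hf
      rw [hP]
      exact Ideal.mul_mem_right _ _ hf
    · rw [Ideal.span_le]
      intro v hv
      exact hcon v hv
  have hX : ∀ i, (X i : PR K N) ∈ P := by
    intro i
    apply hPp.mem_of_pow_mem m
    apply hJP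
    apply hcov
    rw [mem_homogeneousSubmodule]
    have := (isHomogeneous_X K i).pow m
    rwa [one_mul] at this
  intro l hl
  rw [← hP]
  exact RLFaux.lin_mem P hX l hl

end Pool.EGH
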