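import Pool.Agent.H45.EGH.S2
import Pool.Agent.H93.EGH.PNS

/-!
# EGH: the elements killed by a space of linear forms (row ANV)
-/

set_option autoImplicit false

namespace Pool.EGH

open MvPolynomial

namespace ANVaux

variable {K : Type} [Field K] {N : ℕ}

theorem fm_fin (i : ℕ) : Module.Finite K (fm K N i) :=
  Module.Finite.iff_fg.2 (homogeneousSubmodule_fg _ _ i)

theorem gp_fin (Q : Ideal (PR K N)) (i : ℕ) : Module.Finite K (gp Q i) := by
  have := fm_fin (K := K) (N := N) i
  unfold gp
  infer_instance

theorem hc_mul {d : ℕ} (l y : PR K N) (hl : l ∈ fm K N d) (i : ℕ) :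
    homogeneousComponent (i + d) (l * y) = l * homogeneousComponent i y := by
  classical
  conv_lhs => rw [← sum_homogeneousComponent y, Finset.mul_sum, map_sum]
  have h1 : ∀ j : ℕ, homogeneousComponent (i + d) (l * homogeneousComponent j y) =
      if j = i then l * homogeneousComponent i y else 0 := by
    intro j
    have h2 : l * homogeneousComponent j y ∈ homogeneousSubmodule (Fin N) K (d + j) := by
      rw [mem_homogeneousSubmodule] at hl ⊢
      exact hl.mul (homogeneousComponent_isHomogeneous j y)
    rw [homogeneousComponent_of_mem h2]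
    by_cases hj : j = i
    · subst hj
      rw [if_pos (by omega), if_pos rfl]
    · rw [if_neg (by omega), if_neg hj]
  simp only [h1]
  rw [Finset.sum_ite_eq' (Finset.range (y.totalDegree + 1)) i]
  split_ifs with h3
  · rfl
  · rw [Finset.mem_range, not_lt] at h3
    rw [homogeneousComponent_eq_zero i y (by omega), mul_zero]

theorem mem_gp {Q : Ideal (PR K N)} {i : ℕ} {z : PR K N ⧸ Q} :
    z ∈ gp Q i ↔ ∃ f ∈ fm K N i, Ideal.Quotient.mk Q f = z := Iff.rfl

theorem ann_le (Q : Ideal (PR K N)) (j : ℕ) (V : Submodule K (PR K N ⧸ Q)) :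
    ann Q j V ≤ gp Q j := fun _ h => h.1

/-- the lifts of a space of linear forms -/
noncomputable def lft (Q : Ideal (PR K N)) (V : Submodule K (PR K N ⧸ Q)) : Submodule K (PR K N) :=
  fm K N 1 ⊓ V.comap (Ideal.Quotient.mkₐ K Q).toLinearMap

theorem mem_lft {Q : Ideal (PR K N)} {V : Submodule K (PR K N ⧸ Q)} {f : PR K N} :
    f ∈ lft Q V ↔ f ∈ fm K N 1 ∧ Ideal.Quotient.mk Q f ∈ V := Iff.rfl

/-- the image of a space of linear forms in another quotient -/
noncomputable def trn (Q Q' : Ideal (PR K N)) (V : Submodule K (PR K N ⧸ Q)) :
    Submodule K (PR K N ⧸ Q') :=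
  (lft Q V).map (Ideal.Quotient.mkₐ K Q').toLinearMap

theorem trn_le (Q Q' : Ideal (PR K N)) (V : Submodule K (PR K N ⧸ Q)) :
    trn Q Q' V ≤ gp Q' 1 := Submodule.map_mono inf_le_left

theorem finrank_trn (Q Q' : Ideal (PR K N)) (V : Submodule K (PR K N ⧸ Q)) (hV : V ≤ gp Q 1)
    (l : PR K N) (hl : l ∈ fm K N 1) (hQ : Hg Q) (hle : Q' ≤ Q ⊔ Ideal.span {l}) :
    Module.finrank K V ≤ Module.finrank K (trn Q Q' V) + 1 := by
  classical
  have := fm_fin (K := K) (N := N) 1
  have hLfin : Module.Finite K (lft Q V) := Submodule.finiteDimensional_of_le inf_le_left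
  have hVfin : Module.Finite K V := by
    have := gp_fin Q 1
    exact Submodule.finiteDimensional_of_le hV
  -- the map from the lifts to V and to the quotient
  let a : lft Q V →ₗ[K] PR K N ⧸ Q :=
    (Ideal.Quotient.mkₐ K Q).toLinearMap.comp (lft Q V).subtype
  let b : lft Q V →ₗ[K] PR K N ⧸ Q' :=
    (Ideal.Quotient.mkₐ K Q').toLinearMap.comp (lft Q V).subtype
  have ha : LinearMap.range a = V := by
    apply le_antisymm
    · rintro _ ⟨x, rfl⟩
      exact (mem_lft.1 x.2).2
    · intro v hv
      obtain ⟨f, hf, rfl⟩ := mem_gp.1 (hV hv)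
      exact ⟨⟨f, mem_lft.2 ⟨hf, hv⟩⟩, rfl⟩
  have hb : LinearMap.range b = trn Q Q' V := by
    show LinearMap.range ((Ideal.Quotient.mkₐ K Q').toLinearMap.comp (lft Q V).subtype) = _
    rw [LinearMap.range_comp, Submodule.range_subtype]
    rfl
  have h1 := LinearMap.finrank_range_add_finrank_ker a
  have h2 := LinearMap.finrank_range_add_finrank_ker b
  rw [ha] at h1
  rw [hb] at h2
  -- the kernel of b has dimension at most the dimension of the kernel of a plus one
  have h3 : Module.finrank K (LinearMap.ker b) ≤ Module.finrank K (LinearMap.ker a) + 1 := by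
    have hb2 : LinearMap.ker b ≤ LinearMap.ker a ⊔
        (Submodule.comap (lft Q V).subtype (Submodule.span K {l})) := by
      rintro ⟨f, hf⟩ hfb
      have hfQ : f ∈ Q' := by
        have : Ideal.Quotient.mk Q' f = 0 := hfb
        rwa [Ideal.Quotient.eq_zero_iff_mem] at this
      obtain ⟨y, hy⟩ := PNSaux.mem_sup.1 (hle hfQ)
      have hf1 := (mem_lft.1 hf).1
      have h4 := hQ _ hy 1
      rw [map_sub, homogeneousComponent_of_mem hf1, if_pos rfl,
        show (1 : ℕ) = 0 + 1 from rfl, hc_mul l y hl 0, homogeneousComponent_zero] at h4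
      have h5 : f - l * C (coeff 0 y) = f - (coeff 0 y) • l := by
        rw [smul_eq_C_mul, mul_comm]
      rw [h5] at h4
      have h6 : (coeff 0 y) • l ∈ lft Q V := by
        rw [mem_lft]
        refine ⟨Submodule.smul_mem _ _ hl, ?_⟩
        have h7 : Ideal.Quotient.mk Q ((coeff 0 y) • l) = Ideal.Quotient.mk Q f := by
          rw [eq_comm, ← sub_eq_zero, ← map_sub, Ideal.Quotient.eq_zero_iff_mem]
          exact h4
        rw [h7]
        exact (mem_lft.1 hf).2
      have h8 : (⟨f, hf⟩ : lft Q V) = (⟨f, hf⟩ - ⟨_, h6⟩) + ⟨_, h6⟩ := by abel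
      rw [h8]
      apply Submodule.add_mem_sup
      · show Ideal.Quotient.mk Q (f - (coeff 0 y) • l) = 0
        rw [Ideal.Quotient.eq_zero_iff_mem]
        exact h4
      · show (coeff 0 y) • l ∈ Submodule.span K {l}
        exact Submodule.smul_mem _ _ (Submodule.mem_span_singleton_self l)
    have h9 := Submodule.finrank_mono hb2
    have h10 := Submodule.finrank_add_le_finrank_add_finrank (LinearMap.ker a)
      (Submodule.comap (lft Q V).subtype (Submodule.span K {l}))
    have h11 : Module.finrank K (Submodule.comap (lft Q V).subtype (Submodule.span K {l})) ≤ 1 := by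
      have : Module.Finite K (Submodule.span K {l}) := inferInstance
      have h12 : Module.finrank K (Submodule.comap (lft Q V).subtype (Submodule.span K {l})) ≤
          Module.finrank K (Submodule.span K {l}) := by
        let g : Submodule.comap (lft Q V).subtype (Submodule.span K {l}) →ₗ[K]
            Submodule.span K {l} :=
          LinearMap.restrict (lft Q V).subtype (fun x hx => hx)
        apply LinearMap.finrank_le_finrank_of_injective (f := g)
        intro x y hxy
        have := congrArg Subtype.val hxy
        apply Subtype.ext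
        apply Subtype.ext
        exact this
      refine h12.trans ((finrank_span_le_card ({l} : Set (PR K N))).trans ?_)
      simp
    omega
  omega

end ANVaux

open ANVaux

/-- ANV. -/
theorem t_anv (h1 : KILStmt) (h2 : GPDStmt) (h3 : HGAStmt) : ANVStmt := by
  intro K _ _ N n
  induction n with
  | zero =>
    intro Q hQ V hV s hs
    have hd := (h2 K N Q).2 0 hQ
    have := gp_fin Q 1
    have := gp_fin Q s
    have hV0 : Module.finrank K V = 0 := by
      have := Submodule.finrank_mono hV
      rw [hd 1] at this
      simpa using this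
    have h4 := Submodule.finrank_mono (ann_le Q s V)
    rw [hd s] at h4
    have hs0 : s = 0 := by omega
    subst hs0
    rw [hV0]
    simpa using h4
  | succ n ih =>
    intro Q hQ V hV s hs
    have hd := (h2 K N Q).2 (n + 1) hQ
    have hHg : Hg Q := by
      obtain ⟨k, _, hk⟩ := hQ
      exact (h3 K N).2.2.2 _ _ _ hk
    have := gp_fin Q 1
    have := gp_fin Q s
    have hVfin : Module.Finite K V := Submodule.finiteDimensional_of_le hV
    by_cases hV0 : V = ⊥
    · have h4 := Submodule.finrank_mono (ann_le Q s V)
      rw [hd s] at h4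
      rw [hV0] at h4 ⊢
      rw [finrank_bot, Nat.sub_zero, Nat.choose_symm hs]
      exact h4
    · obtain ⟨v, hv, hv0⟩ := Submodule.exists_mem_ne_zero_of_ne_bot hV0
      obtain ⟨l, hl, rfl⟩ := mem_gp.1 (hV hv)
      have hlQ : l ∉ Q := fun h => hv0 (Ideal.Quotient.eq_zero_iff_mem.2 h)
      cases s with
      | zero =>
        have h5 : ann Q 0 V = ⊥ := by
          rw [eq_bot_iff]
          rintro z ⟨hz, hzV⟩
          obtain ⟨f, hf, rfl⟩ := mem_gp.1 hz
          have h6 : f = C (coeff 0 f) := by
            have := homogeneousComponent_of_mem (m := 0) hf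
            rw [if_pos rfl, homogeneousComponent_zero] at this
            exact this.symm
          have h7 := hzV _ hv
          rw [← map_mul, Ideal.Quotient.eq_zero_iff_mem] at h7
          by_cases hc : coeff 0 f = 0
          · rw [h6, hc]
            simp
          · exfalso
            apply hlQ
            have h8 : l = C (coeff 0 f)⁻¹ * (f * l) := by
              rw [← mul_assoc]
              conv_rhs => rw [h6]
              rw [coeff_zero_C, ← C_mul, inv_mul_cancel₀ hc, C_1, one_mul]
            rw [h8]
            exact Ideal.mul_mem_left _ _ h7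
        rw [h5, finrank_bot]
        exact Nat.zero_le _
      | succ s =>
        obtain ⟨Q', hQ', hlQ', hle, φ, hφ, hφd⟩ := h1 K N n Q l hQ hl hlQ
        have h4 := ih Q' hQ' (trn Q Q' V) (trn_le Q Q' V) s (by omega)
        have h5 := finrank_trn Q Q' V hV l hl hHg hle
        have hker : ∀ z ∈ ann Q (s + 1) V,
            z ∈ LinearMap.ker (LinearMap.lsmul (PR K N) (PR K N ⧸ Q) l) := by
          intro z hz
          rw [LinearMap.mem_ker]
          show Ideal.Quotient.mk Q l * z = 0
          rw [mul_comm]
          exact hz.2 _ hv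
        have h6 : Module.finrank K ↥(ann Q (s + 1) V) ≤
            Module.finrank K ↥(ann Q' s (trn Q Q' V)) := by
          have : Module.Finite K ↥(ann Q' s (trn Q Q' V)) := by
            have := gp_fin Q' s
            exact Submodule.finiteDimensional_of_le (ann_le Q' s _)
          let g : ↥(ann Q (s + 1) V) →ₗ[K] ↥(ann Q' s (trn Q Q' V)) :=
            { toFun := fun z => ⟨φ ⟨z, hker z z.2⟩, by
                refine ⟨hφd s z _ z.2.1, ?_⟩
                rintro _ ⟨f, hf, rfl⟩
                have hf2 := mem_lft.1 hf
                have h7 : f • φ ⟨z, hker z z.2⟩ = 0 := by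
                  rw [← map_smul]
                  have h8 : f • (⟨z, hker z z.2⟩ :
                      ↥(LinearMap.ker (LinearMap.lsmul (PR K N) (PR K N ⧸ Q) l))) = 0 := by
                    apply Subtype.ext
                    show Ideal.Quotient.mk Q f * z = 0
                    rw [mul_comm]
                    exact z.2.2 _ hf2.2
                  rw [h8, map_zero]
                show φ ⟨z, hker z z.2⟩ * Ideal.Quotient.mk Q' f = 0
                rw [mul_comm]
                exact h7⟩
              map_add' := by
                intro x y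
                apply Subtype.ext
                exact φ.map_add ⟨x, hker x x.2⟩ ⟨y, hker y y.2⟩
              map_smul' := by
                intro c x
                apply Subtype.ext
                have h9 := φ.map_smul (C c) ⟨x, hker x x.2⟩
                have h10 : (C c : PR K N) • (⟨x, hker x x.2⟩ :
                      ↥(LinearMap.ker (LinearMap.lsmul (PR K N) (PR K N ⧸ Q) l))) =
                    ⟨(c • x : ↥(ann Q (s + 1) V)), hker _ (c • x).2⟩ := by
                  apply Subtype.ext
                  show (C c : PR K N) • (x : PR K N ⧸ Q) = c • (x : PR K N ⧸ Q)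
                  exact algebraMap_smul (PR K N) c (x : PR K N ⧸ Q)
                rw [h10] at h9
                show φ ⟨_, _⟩ = c • φ ⟨_, _⟩
                rw [h9]
                exact algebraMap_smul (PR K N) c (φ ⟨x, hker x x.2⟩) }
          apply LinearMap.finrank_le_finrank_of_injective (f := g)
          intro x y hxy
          have h11 := hφ (congrArg Subtype.val hxy)
          have h12 := congrArg (fun w : ↥(LinearMap.ker (LinearMap.lsmul (PR K N) (PR K N ⧸ Q) l))
            => (w : PR K N ⧸ Q)) h11
          apply Subtype.ext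
          exact h12
        refine h6.trans (h4.trans ?_)
        rw [show n + 1 - (s + 1) = n - s by omega]
        exact Nat.choose_le_choose _ (by omega)

end Pool.EGH
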