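import Pool.Agent.H93.EGH.ANV

/-!
# EGH: growth from degree 2 to degree 3, five quadrics (row E52); small subspaces of degree 3
(row V33)
-/

set_option autoImplicit false

namespace Pool.EGH

open MvPolynomial ANVaux

/-- E52. -/
theorem t_e52 (h1 : RE5Stmt) (h2 : RQEStmt) (h3 : ANVStmt) (h4 : IMGStmt) (h5 : GPDStmt) :
    E52Stmt := by
  intro K _ _ N Q I hQ hI hQI
  have i2 := h4 K N 5 Q I hQ hI hQI 2
  have i3 := h4 K N 5 Q I hQ hI hQI 3
  have c2 : Nat.choose 5 2 = 10 := rfl
  have c3 : Nat.choose 5 3 = 10 := rfl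
  rw [c2] at i2
  rw [c3] at i3
  by_cases h8 : hf I 2 ≤ 8
  · obtain ⟨l, m, hl, hm, hlQ, hmQ, hlm⟩ := h2 K N 5 Q I hQ hI hQI (by norm_num) (by omega)
    exact h1 K N Q I l m hQ hI hQI hl hm hlQ hmQ hlm
  · by_cases h10 : hf I 2 = 10
    · rw [h10]
      show hf I 3 ≤ 10
      omega
    · have h9 : hf I 2 = 9 := by omega
      rw [h9]
      show hf I 3 ≤ 7
      have hr : Module.finrank K ↥(im Q I 2) = 1 := by omega
      have hne : im Q I 2 ≠ ⊥ := by
        intro h
        rw [h, finrank_bot] at hr
        omega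
      obtain ⟨u, hu, hu0⟩ := Submodule.exists_mem_ne_zero_of_ne_bot hne
      have hu2 : u ∈ gp Q 2 := i2.1 hu
      have f1 := gp_fin Q 1
      have f2 := gp_fin Q 2
      have f3 := gp_fin Q 3
      let V := ann Q 1 (Submodule.span K {u})
      have hV : V ≤ gp Q 1 := ann_le _ _ _
      have hVu : ∀ v ∈ V, v * u = 0 := fun v hv =>
        hv.2 u (Submodule.mem_span_singleton_self u)
      have huV : u ∈ ann Q 2 V := ⟨hu2, fun v hv => by rw [mul_comm]; exact hVu v hv⟩
      have h11 := h3 K N 5 Q hQ V hV 2 (by norm_num)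
      have h12 : 1 ≤ Module.finrank K ↥(ann Q 2 V) := by
        have : Module.Finite K ↥(ann Q 2 V) := Submodule.finiteDimensional_of_le (ann_le Q 2 V)
        rw [Nat.one_le_iff_ne_zero]
        intro h0
        have := (Submodule.finrank_eq_zero).1 h0
        rw [this] at huV
        exact hu0 (by simpa using huV)
      have h13 : Module.finrank K V ≤ 2 := by
        by_contra hcon
        have h14 : (5 - Module.finrank K V).choose (5 - 2) = 0 :=
          Nat.choose_eq_zero_of_lt (by omega)
        omega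
      -- multiplication by u on gp 1
      let g : gp Q 1 →ₗ[K] PR K N ⧸ Q := (LinearMap.mulRight K u).comp (gp Q 1).subtype
      have h15 := LinearMap.finrank_range_add_finrank_ker g
      rw [(h5 K N Q).2 5 hQ 1] at h15
      have c1 : Nat.choose 5 1 = 5 := rfl
      rw [c1] at h15
      have h16 : Module.finrank K (LinearMap.ker g) ≤ Module.finrank K V := by
        have : Module.Finite K V := Submodule.finiteDimensional_of_le hV
        let e : LinearMap.ker g →ₗ[K] V :=
          { toFun := fun x => ⟨x.1.1, ⟨x.1.2, by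
              intro w hw
              obtain ⟨c, rfl⟩ := Submodule.mem_span_singleton.1 hw
              have h17 : (x.1 : PR K N ⧸ Q) * u = 0 := x.2
              rw [mul_smul_comm, h17, smul_zero]⟩⟩
            map_add' := fun _ _ => rfl
            map_smul' := fun _ _ => rfl }
        apply LinearMap.finrank_le_finrank_of_injective (f := e)
        intro x y hxy
        have h18 := congrArg (fun w : V => (w : PR K N ⧸ Q)) hxy
        apply Subtype.ext
        apply Subtype.ext
        exact h18
      have h19 : LinearMap.range g ≤ im Q I 3 := by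
        rintro _ ⟨x, rfl⟩
        exact i2.2.2 (Submodule.mul_mem_mul x.2 hu)
      have h20 : Module.finrank K (LinearMap.range g) ≤ Module.finrank K (im Q I 3) := by
        have : Module.Finite K ↥(im Q I 3) := Submodule.finiteDimensional_of_le i3.1
        exact Submodule.finrank_mono h19
      omega

/-- V33. -/
theorem t_v33 (h1 : P6AStmt) (h2 : ANNStmt) : V33Stmt := by
  intro K _ _ N Q V hQ hV
  have f3 := gp_fin Q 3
  have a1 := h2 K N 6 Q hQ 3 2 1 (by norm_num) V hV
  have a2 := h2 K N 6 Q hQ 2 3 1 (by norm_num) (ann Q 2 V) (ann_le _ _ _)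
  have c2 : Nat.choose 6 2 = 15 := rfl
  have c3 : Nat.choose 6 3 = 20 := rfl
  rw [c2] at a1
  rw [c3] at a2
  have hle : V ≤ ann Q 3 (ann Q 2 V) := fun v hv => ⟨hV hv, fun y hy => by
    rw [mul_comm]; exact hy.2 v hv⟩
  have hfr : Module.finrank K V ≤ Module.finrank K ↥(ann Q 3 (ann Q 2 V)) := by
    have : Module.Finite K ↥(ann Q 3 (ann Q 2 V)) :=
      Submodule.finiteDimensional_of_le (ann_le _ _ _)
    exact Submodule.finrank_mono hle
  have hd : dg Q V = Module.finrank K ↥(gp Q 1 * V) := rfl
  have hdC : dg Q (ann Q 2 V) = Module.finrank K ↥(gp Q 1 * ann Q 2 V) := rfl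
  have key : dg Q V ≤ 5 → Module.finrank K V ≤ b2 (dg Q V) := by
    intro h5
    have h6 := h1 K N Q (ann Q 2 V) hQ (ann_le _ _ _) (by omega)
    have h7 : 15 - Module.finrank K ↥(ann Q 2 V) = dg Q V := by omega
    rw [h7] at h6
    omega
  have b0 : b2 0 = 0 := rfl
  have b1 : b2 1 = 0 := rfl
  have b2' : b2 2 = 0 := rfl
  have b3' : b2 3 = 1 := rfl
  have b4' : b2 4 = 1 := rfl
  have b5 : b2 5 = 2 := rfl
  generalize dg Q V = d at key
  refine ⟨fun h => ?_, fun h => ?_, fun h => ?_⟩
  · by_contra hcon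
    have h8 := key (by omega)
    have : d = 0 ∨ d = 1 ∨ d = 2 := by omega
    rcases this with rfl | rfl | rfl <;> omega
  · by_contra hcon
    have h8 := key (by omega)
    have : d = 0 ∨ d = 1 ∨ d = 2 ∨ d = 3 ∨ d = 4 := by omega
    rcases this with rfl | rfl | rfl | rfl | rfl <;> omega
  · by_contra hcon
    have h8 := key (by omega)
    have : d = 0 ∨ d = 1 ∨ d = 2 ∨ d = 3 ∨ d = 4 ∨ d = 5 := by omega
    rcases this with rfl | rfl | rfl | rfl | rfl | rfl <;> omega

end Pool.EGH
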